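import Pool.Agent.Lib.helper21.Coin

set_option autoImplicit false

namespace Pool.Agent.H.MP_e12961_lc

open Pool.Agent.Lib.helper21.Fn Pool.Agent.Lib.helper21.CPred Finset MeasureTheory Encodable
open Denumerable
open Nat.Partrec (Code)
open Nat.Partrec.Code
open scoped ENNReal Classical

def svs (e : ℕ) (Y : Om) (s : ℕ) : Om := fun j =>
  decide (∃ u < s, att e Y u j = 2 ∧ ∀ u' < u, att e Y u' j = 0)

noncomputable def sv (e : ℕ) (Y : Om) : Om := fun j =>
  decide (∃ u, att e Y u j = 2 ∧ ∀ u' < u, att e Y u' j = 0)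

theorem sv_spec {Y B : Om} (h : TuringReducible (orc B) (orc Y)) :
    ∃ e, (∀ j, ∃ u, att e Y u j ≠ 0) ∧ sv e Y = B := by
  obtain ⟨e, he⟩ := complete Y _ h
  refine ⟨e, fun j => (he j).1, funext fun j => ?_⟩
  rw [Bool.eq_iff_iff, sv, decide_eq_true_iff]
  constructor
  · rintro ⟨u, hu, -⟩
    have := (he j).2 u (by omega)
    cases hB : B j
    · simp [hB, hu] at this
    · rfl
  · intro hB
    refine ⟨Nat.find (he j).1, by rw [(he j).2 _ (Nat.find_spec (he j).1), hB]; rfl,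
      fun u hu => by simpa using Nat.find_min (he j).1 hu⟩

theorem svs_eq {e s j : ℕ} {Y : Om} (h : ∃ u < s, att e Y u j ≠ 0) : svs e Y s j = sv e Y j := by
  obtain ⟨v, hv, h⟩ := h
  simp only [svs, sv, decide_eq_decide]
  refine ⟨fun ⟨u, _, h⟩ => ⟨u, h⟩, fun ⟨u, h1, h2⟩ => ⟨u, ?_, h1, h2⟩⟩
  by_contra h3
  exact h (h2 v (by omega))

theorem agr_congr {Z Z' S S' : Om} {n : ℕ} (h1 : ∀ i < 2 ^ (n + 1), Z i = Z' i)
    (h2 : ∀ i < 2 ^ (n + 1), S i = S' i) : agr Z S n = agr Z' S' n := by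
  unfold agr
  congr 1
  refine filter_congr fun j hj => ?_
  have : 2 ^ n + j < 2 ^ (n + 1) := by have := mem_range.1 hj; omega
  rw [h1 _ this, h2 _ this]

def Bad (s : ℕ) (Z Y : Om) : Prop := ∃ e < s, ∃ k < s, 2 ^ (e + k + 8) ≤ s ∧
  (∀ j < 2 ^ (e + k + 8), ∃ u < s, att e Y u j ≠ 0) ∧
    4 * agr Z (svs e Y s) (e + k + 7) < 2 ^ (e + k + 7)

theorem bad_iff {s : ℕ} {Z Y : Om} : Bad s Z Y ↔ ∃ e < s, ∃ k < s, 2 ^ (e + k + 8) ≤ s ∧
    (∀ j < 2 ^ (e + k + 8), ∃ u < s, att e Y u j ≠ 0) ∧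
      4 * agr Z (sv e Y) (e + k + 7) < 2 ^ (e + k + 7) := by
  refine exists_congr fun e => and_congr_right fun _ => exists_congr fun k =>
    and_congr_right fun _ => and_congr_right fun _ => and_congr_right fun h => ?_
  rw [agr_congr (fun _ _ => rfl) fun j hj => svs_eq (h j hj)]

theorem Bad.mono {s t : ℕ} {Z Y : Om} (h : Bad s Z Y) (hst : s ≤ t) : Bad t Z Y := by
  obtain ⟨e, he, k, hk, h1, h2, h3⟩ := bad_iff.1 h
  exact bad_iff.2 ⟨e, he.trans_le hst, k, hk.trans_le hst, h1.trans hst,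
    fun j hj => (h2 j hj).imp fun u hu => ⟨hu.1.trans_le hst, hu.2⟩, h3⟩

theorem Bad.congr {s : ℕ} {Z Y Z' Y' : Om} (h : Bad s Z Y) (hZ : ∀ i < s, Z i = Z' i)
    (hY : ∀ i < s, Y i = Y' i) : Bad s Z' Y' := by
  obtain ⟨e, he, k, hk, h1, h2, h3⟩ := h
  refine ⟨e, he, k, hk, h1, fun j hj => let ⟨u, hu, h⟩ := h2 j hj
    ⟨u, hu, att_congr e hY hu.le j ▸ h⟩, ?_⟩
  rwa [agr_congr (fun i hi => (hZ i (hi.trans_le h1)).symm) (S' := svs e Y s) fun j _ => ?_]
  simp only [svs, decide_eq_decide]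
  refine exists_congr fun u => and_congr_right fun hu => ?_
  rw [att_congr e hY hu.le]
  exact and_congr_right fun _ => forall₂_congr fun v hv => by rw [att_congr e hY (hv.trans hu).le]

theorem not_bad {Z Y B : Om} (h : ∀ s, ¬ Bad s Z Y) (hB : TuringReducible (orc B) (orc Y)) :
    ∃ n0, ∀ n, n0 ≤ n → 2 ^ n ≤ 4 * agr Z B n := by
  obtain ⟨e, h1, rfl⟩ := sv_spec hB
  refine ⟨e + 7, fun n hn => ?_⟩
  obtain ⟨k, rfl⟩ : ∃ k, n = e + k + 7 := ⟨n - (e + 7), by omega⟩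
  by_contra h2
  choose u hu using h1
  let M := (range (2 ^ (e + k + 8))).sup u
  have : 0 < 2 ^ (e + k + 8) := by positivity
  refine h (e + k + M + 2 ^ (e + k + 8) + 1) (bad_iff.2 ⟨e, by omega, k, by omega, by omega,
    fun j hj => ⟨u j, ?_, hu j⟩, not_le.1 h2⟩)
  have : u j ≤ M := le_sup (mem_range.2 hj)
  omega

variable {α : Type} [Primcodable α]

open Computable in
theorem svs_comp {e s j : α → ℕ} {Y : α → Om} (he : Computable e) (hY : Computable₂ Y)
    (hs : Computable s) (hj : Computable j) : Computable fun a => svs (e a) (Y a) (s a) (j a) := by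
  have h1 : Computable fun z : α × ℕ => att (e z.1) (Y z.1) z.2 (j z.1) :=
    att_comp (he.comp fst) (hY.comp (fst.comp fst) snd).to₂ snd (hj.comp fst)
  have h2 : ComputablePred fun z : (α × ℕ) × ℕ => att (e z.1.1) (Y z.1.1) z.2 (j z.1.1) = 0 :=
    ceq (att_comp (he.comp (fst.comp fst)) (hY.comp (fst.comp (fst.comp fst)) snd).to₂ snd
      (hj.comp (fst.comp fst))) (const 0)
  have h3 : ComputablePred fun a => ∃ u < s a, att (e a) (Y a) u (j a) = 2 ∧
      ∀ u' < u, att (e a) (Y a) u' (j a) = 0 := cex (cand (ceq h1 (const 2)) (call h2 snd)) hs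
  obtain ⟨g, hg, h4⟩ := ComputablePred.computable_iff.1 h3
  exact hg.of_eq fun a => by
    rw [Bool.eq_iff_iff, svs, decide_eq_true_iff]; exact (iff_of_eq (congrFun h4 a)).symm

open Computable in
theorem agr_comp {n : α → ℕ} {Z S : α → Om} (hZ : Computable₂ Z) (hS : Computable₂ S)
    (hn : Computable n) : Computable fun a => agr (Z a) (S a) (n a) := by
  have h1 : Computable fun z : α × ℕ => 2 ^ n z.1 + z.2 :=
    Primrec.nat_add.to_comp.comp (pow2.to_comp.comp (hn.comp fst)) snd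
  exact ccount (p := fun a j => Z a (2 ^ n a + j) = S a (2 ^ n a + j))
    (ceq (hZ.comp fst h1) (hS.comp fst h1)) (pow2.to_comp.comp hn)

open Computable in
theorem bad_comp {s : α → ℕ} {Z Y : α → Om} (hs : Computable s) (hZ : Computable₂ Z)
    (hY : Computable₂ Y) : ComputablePred fun a => Bad (s a) (Z a) (Y a) := by
  have n : ∀ c : ℕ, Computable fun z : (α × ℕ) × ℕ => z.1.2 + z.2 + c := fun c =>
    (Primrec.nat_add.comp (Primrec.nat_add.comp (Primrec.snd.comp Primrec.fst) Primrec.snd)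
      (Primrec.const c)).to_comp
  have h1 : ComputablePred fun z : (α × ℕ) × ℕ => 2 ^ (z.1.2 + z.2 + 8) ≤ s z.1.1 :=
    (clt (hs.comp (fst.comp fst)) (pow2.to_comp.comp (n 8))).not.of_eq fun _ => not_lt
  have h2 : ComputablePred fun z : (((α × ℕ) × ℕ) × ℕ) × ℕ =>
      att z.1.1.1.2 (Y z.1.1.1.1) z.2 z.1.2 ≠ 0 :=
    (ceq (att_comp (snd.comp (fst.comp (fst.comp fst)))
      (hY.comp (fst.comp (fst.comp (fst.comp (fst.comp fst)))) snd).to₂ snd (snd.comp fst))
      (const 0)).not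
  have h3 : ComputablePred fun z : (α × ℕ) × ℕ => ∀ j < 2 ^ (z.1.2 + z.2 + 8), ∃ u < s z.1.1,
      att z.1.2 (Y z.1.1) u j ≠ 0 :=
    call (cex h2 (hs.comp (fst.comp (fst.comp fst)))) (pow2.to_comp.comp (n 8))
  have h4 : Computable₂ fun (z : (α × ℕ) × ℕ) j => svs z.1.2 (Y z.1.1) (s z.1.1) j :=
    svs_comp (snd.comp (fst.comp fst)) (hY.comp (fst.comp (fst.comp (fst.comp fst))) snd).to₂
      (hs.comp (fst.comp (fst.comp fst))) snd
  have h5 : Computable fun z : (α × ℕ) × ℕ =>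
      agr (Z z.1.1) (svs z.1.2 (Y z.1.1) (s z.1.1)) (z.1.2 + z.2 + 7) :=
    agr_comp (hZ.comp (fst.comp (fst.comp fst)) snd).to₂ h4 (n 7)
  exact cex (cex (cand h1 (cand h3 (clt (Primrec.nat_mul.to_comp.comp (const 4) h5)
    (pow2.to_comp.comp (n 7))))) (hs.comp fst)) hs

def jn (P C : Om) : Om := fun i => if i % 2 = 0 then P (i / 2) else C (i / 2)

theorem jn_congr {s : ℕ} {P C P' C' : Om} (hP : ∀ i < s, P i = P' i) (hC : ∀ i < s, C i = C' i) :
    ∀ i < s, jn P C i = jn P' C' i := fun i hi => by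
  simp only [jn, hP (i / 2) (by omega), hC (i / 2) (by omega)]

def Dnc (s : ℕ) (P : Om) : Prop := ∀ e < s, encode (evaln s (ofNat Code e) e) ≠ (P e).toNat + 1

theorem Dnc.anti {s t : ℕ} {P : Om} (h : Dnc t P) (hst : s ≤ t) : Dnc s P := fun e he h1 => by
  refine h e (he.trans_le hst) ?_
  cases hv : evaln s (ofNat Code e) e with
  | none => simp [hv] at h1
  | some v => rw [← h1, hv, Option.mem_def.1 (evaln_mono hst hv)]

theorem dnc_loc (s : ℕ) : Loc s (Dnc s) := fun _ _ h h1 e he => h e he ▸ h1 e he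

theorem exists_dnc : ∃ P, ∀ s, Dnc s P := by
  refine ⟨fun e => decide (0 ∈ (ofNat Code e).eval e), fun s e _ h => ?_⟩
  cases hv : evaln s (ofNat Code e) e with
  | none => simp [hv] at h
  | some v =>
    have h1 := evaln_sound hv
    by_cases h2 : 0 ∈ (ofNat Code e).eval e
    · simp [hv, h2, Part.mem_unique h1 h2] at h
    · simp only [hv, h2, encode_some, encode_nat, decide_false, Bool.toNat_false] at h
      exact h2 ((by omega : v = 0) ▸ h1)

def V (s : ℕ) (Z C : Om) : Prop := ∀ P, Dnc s P → Bad s Z (jn P C)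

theorem V.congr {s : ℕ} {Z C Z' C' : Om} (h : V s Z C) (hZ : ∀ i < s, Z i = Z' i)
    (hC : ∀ i < s, C i = C' i) : V s Z' C' := fun P hP =>
  (h P hP).congr hZ (jn_congr (fun _ _ => rfl) hC)

theorem V.mono {s t : ℕ} {Z C : Om} (h : V s Z C) (hst : s ≤ t) : V t Z C := fun P hP =>
  (h P (hP.anti hst)).mono hst

open Computable in
theorem V_comp : ComputablePred fun a : (ℕ × ℕ) × ℕ => V a.1.1 (tb a.1.2) (tb a.2) := by
  have h1 : ComputablePred fun a : (ℕ × ℕ) × ℕ =>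
      encode (evaln a.1.1 (ofNat Code a.2) a.2) ≠ (tb a.1.2 a.2).toNat + 1 :=
    (ceq (Primrec.encode.comp (primrec_evaln.comp (((Primrec.fst.comp Primrec.fst).pair
      ((Primrec.ofNat Code).comp Primrec.snd)).pair Primrec.snd))).to_comp
      (Primrec.succ.comp (toNat_prim.comp (tb_prim.comp (Primrec.snd.comp Primrec.fst)
        Primrec.snd))).to_comp).not
  have h2 : ComputablePred fun a : ℕ × ℕ => Dnc a.1 (tb a.2) := call h1 fst
  have h3 : Primrec fun i : ℕ => i / 2 := Primrec.nat_div.comp Primrec.id (Primrec.const 2)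
  have h4 : Primrec₂ fun (a : ((ℕ × ℕ) × ℕ) × ℕ) i => jn (tb a.2) (tb a.1.2) i :=
    Primrec.ite (Primrec.eq.comp (Primrec.nat_mod.comp Primrec.snd (Primrec.const 2))
      (Primrec.const 0)) (tb_prim.comp (Primrec.snd.comp Primrec.fst) (h3.comp Primrec.snd))
      (tb_prim.comp (Primrec.snd.comp (Primrec.fst.comp Primrec.fst)) (h3.comp Primrec.snd))
  have h5 : ComputablePred fun a : ((ℕ × ℕ) × ℕ) × ℕ =>
      Bad a.1.1.1 (tb a.1.1.2) (jn (tb a.2) (tb a.1.2)) :=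
    bad_comp (fst.comp (fst.comp fst))
      (tb_prim.to_comp.comp (snd.comp (fst.comp (fst.comp fst))) snd).to₂ h4.to_comp
  have h6 : ComputablePred fun a : (ℕ × ℕ) × ℕ => ∀ p < 2 ^ a.1.1,
      ¬ Dnc a.1.1 (tb p) ∨ Bad a.1.1 (tb a.1.2) (jn (tb p) (tb a.2)) :=
    call (cor (ccomp h2 ((fst.comp (fst.comp fst)).pair snd)).not h5)
      (pow2.to_comp.comp (fst.comp fst))
  refine h6.of_eq fun a => ⟨fun h P hP => ?_, fun h p _ => imp_iff_not_or.1 (h _)⟩
  exact ((h _ (cd_lt P _)).resolve_left (not_not.2 (((dnc_loc _).iff P).2 hP))).congr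
    (fun _ _ => rfl) (jn_congr (tb_cd P _) fun _ _ => rfl)

def T (s : ℕ) (Z : Om) : Prop := 2 * #{c ∈ range (2 ^ s) | V s Z (tb c)} ≤ 2 ^ s

theorem T_iff {s : ℕ} {Z : Om} : T s Z ↔ mu {C | V s Z C} ≤ 2⁻¹ :=
  (mu_loc_le (fun _ _ h h1 => V.congr h1 (fun _ _ => rfl) h) 2 (by norm_num)).symm

theorem exists_T (s : ℕ) : ∃ Z, T s Z := by
  obtain ⟨P, hP⟩ := exists_dnc
  have h1 : ∀ C, 8 * #{z ∈ range (2 ^ s) | V s (tb z) C} ≤ 2 ^ s := fun C => by
    refine (mu_loc_le (S := fun Z => V s Z C) (fun _ _ h h1 => h1.congr h fun _ _ => rfl) 8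
      (by norm_num)).1 ((measure_mono fun Z hZ => ?_).trans (mu_bad fun e => sv e (jn P C)))
    obtain ⟨e, -, k, -, -, -, h⟩ := bad_iff.1 (hZ P (hP s))
    exact ⟨e, k, h⟩
  by_contra h
  simp only [T, not_exists, not_le] at h
  have h2 : ∑ z ∈ range (2 ^ s), #{c ∈ range (2 ^ s) | V s (tb z) (tb c)} =
      ∑ c ∈ range (2 ^ s), #{z ∈ range (2 ^ s) | V s (tb z) (tb c)} := by
    simp only [card_filter]
    exact sum_comm
  have h3 := sum_le_sum fun c (_ : c ∈ range (2 ^ s)) => h1 (tb c)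
  have h4 := sum_le_sum fun z (_ : z ∈ range (2 ^ s)) => (h (tb z)).le
  simp only [← mul_sum, sum_const, card_range, smul_eq_mul] at h3 h4
  have : 0 < 2 ^ s * 2 ^ s := by positivity
  omega

def tree : Tree where
  T := T
  loc := fun s Z Z' h hZ => T_iff.2 ((measure_mono fun _ h1 =>
    V.congr h1 (fun i hi => (h i hi).symm) fun _ _ => rfl).trans (T_iff.1 hZ))
  comp := (clt (pow2.to_comp.comp Computable.fst) (Primrec.nat_mul.to_comp.comp
    (Computable.const 2) (ccount (p := fun (a : ℕ × ℕ) c => V a.1 (tb a.2) (tb c)) V_comp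
      (pow2.to_comp.comp Computable.fst)))).not.of_eq fun _ => not_lt
  ne := compact T (fun s Z Z' h hZ => T_iff.2 ((measure_mono fun _ h1 =>
    V.congr h1 (fun i hi => (h i hi).symm) fun _ _ => rfl).trans (T_iff.1 hZ))) fun s =>
      (exists_T s).imp fun _ hZ _ hu => T_iff.2 ((measure_mono fun _ h1 =>
        V.mono h1 hu).trans (T_iff.1 hZ))

end Pool.Agent.H.MP_e12961_lc
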