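import Pool.Agent.H.MP_e12961_lc.A

set_option autoImplicit false

namespace Pool.Agent.H.MP_e12961_lc

open Pool.Agent.Lib.helper21.Fn Pool.Agent.Lib.helper21.CPred Finset MeasureTheory Encodable
open Denumerable Filter
open Nat.Partrec (Code)
open Nat.Partrec.Code
open scoped ENNReal Classical

def st (e : ℕ) : ℕ → ℕ × ℕ
  | 0 => (0, 0)
  | s + 1 => if raw e e s (st e s).2 = 0 then st e s else ((st e s).1 + 1, s + 1)

theorem st_prim : Primrec₂ st := by
  have h1 : Primrec fun z : (ℕ × ℕ) × ℕ × ℕ × ℕ => raw z.1.1 z.1.1 z.2.1 z.2.2.2 :=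
    raw_prim.comp (((Primrec.fst.comp Primrec.fst).pair (Primrec.fst.comp Primrec.fst)).pair
      ((Primrec.fst.comp Primrec.snd).pair (Primrec.snd.comp (Primrec.snd.comp Primrec.snd))))
  refine (Primrec.nat_rec' Primrec.snd (Primrec.const (0, 0))
    (h := fun (a : ℕ × ℕ) (z : ℕ × ℕ × ℕ) => if raw a.1 a.1 z.1 z.2.2 = 0 then z.2
      else (z.2.1 + 1, z.1 + 1))
    (Primrec.ite (Primrec.eq.comp h1 (Primrec.const 0)) (Primrec.snd.comp Primrec.snd)
      ((Primrec.succ.comp (Primrec.fst.comp (Primrec.snd.comp Primrec.snd))).pair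
        (Primrec.succ.comp (Primrec.fst.comp Primrec.snd)))).to₂).of_eq fun a => ?_
  induction a.2 with
  | zero => rfl
  | succ n ih => simp only [st, ← ih]

theorem raw_ne {e a n : ℕ} : (∃ t, raw e a t n ≠ 0) ↔ ((ofNat Code e).eval (Nat.pair a n)).Dom := by
  rw [Part.dom_iff_mem]
  constructor
  · rintro ⟨t, ht⟩
    cases hv : evaln t (ofNat Code e) (Nat.pair a n) with
    | none => simp [raw, hv] at ht
    | some v => exact ⟨v, evaln_sound hv⟩
  · rintro ⟨v, hv⟩
    obtain ⟨t, ht⟩ := evaln_complete.1 hv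
    exact ⟨t, by simp [raw, Option.mem_def.1 ht]⟩

theorem raw_mono {e a n s t : ℕ} (h : raw e a s n ≠ 0) (hst : s ≤ t) : raw e a t n ≠ 0 := by
  cases hv : evaln s (ofNat Code e) (Nat.pair a n) with
  | none => simp [raw, hv] at h
  | some v => simp [raw, Option.mem_def.1 (evaln_mono hst hv)]

theorem st_stay {e k s : ℕ} (h : st e s = (k, s)) : ∀ d, (∀ t < d, raw e e (s + t) s = 0) →
    st e (s + d) = (k, s)
  | 0, _ => h
  | d + 1, h1 => by
    have := st_stay h d fun t ht => h1 t (by omega)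
    rw [← add_assoc, st, this, if_pos (h1 _ (by omega))]

theorem st_uniq {e k s k' s' : ℕ} (h : st e s = (k, s)) (h' : st e s' = (k', s'))
    (hd : ¬ ((ofNat Code e).eval (Nat.pair e s)).Dom) (hs : s ≤ s') : k' = k := by
  obtain ⟨d, rfl⟩ := Nat.exists_eq_add_of_le hs
  rw [← raw_ne, not_exists] at hd
  rw [st_stay h d fun t _ => not_not.1 (hd _)] at h'
  exact (Prod.mk.inj h').1.symm

theorem st_all {e : ℕ} (hd : ∀ n, ((ofNat Code e).eval n).Dom) : ∀ k, ∃ s, st e s = (k, s)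
  | 0 => ⟨0, rfl⟩
  | k + 1 => by
    obtain ⟨s, hs⟩ := st_all hd k
    have h1 : ∃ d, raw e e (s + d) s ≠ 0 :=
      (raw_ne.2 (hd _)).imp fun t ht => raw_mono ht (by omega)
    have h2 : st e (s + Nat.find h1) = (k, s) :=
      st_stay hs _ fun t ht => not_not.1 (Nat.find_min h1 ht)
    exact ⟨s + Nat.find h1 + 1, by rw [st, h2, if_neg (Nat.find_spec h1)]⟩

def ke (C : Om) (e : ℕ) : ℕ := cd (fun i => C (Nat.pair e i)) (e + 3)

def Fail (e : ℕ) (C : Om) : Prop :=
  ∃ s, st e s = (ke C e, s) ∧ ¬ ((ofNat Code e).eval (Nat.pair e s)).Dom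

theorem mu_fail (e : ℕ) : mu {C | Fail e C} ≤ 2⁻¹ ^ (e + 3) := by
  by_cases h : ∃ C, Fail e C
  · obtain ⟨D, s, h1, h2⟩ := h
    have := mu_cyl ((range (e + 3)).map ⟨Nat.pair e, fun a b h => by simpa using h⟩) D
    rw [card_map, card_range] at this
    refine (measure_mono ?_).trans_eq this
    rintro C ⟨s', h3, h4⟩ i hi
    obtain ⟨i, hj, rfl⟩ := mem_map.1 hi
    have h5 : ke C e = ke D e := by
      rcases le_total s s' with h | h
      · exact st_uniq h1 h3 h2 h
      · exact (st_uniq h3 h1 h4 h).symm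
    have h6 := tb_cd (fun i => C (Nat.pair e i)) _ i (mem_range.1 hj)
    have h7 := tb_cd (fun i => D (Nat.pair e i)) _ i (mem_range.1 hj)
    exact h6.symm.trans ((congrArg (tb · i) h5).trans h7)
  · simp only [not_exists] at h
    simp [h]

theorem mu_fail' : mu {C | ∃ e, Fail e C} ≤ 4⁻¹ := by
  simp only [Set.ofPred_exists]
  refine (measure_iUnion_le _).trans ((ENNReal.tsum_le_tsum mu_fail).trans_eq ?_)
  simp only [pow_add, ENNReal.tsum_mul_right, ENNReal.tsum_geometric,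
    ENNReal.one_sub_inv_two, inv_inv]
  rw [← ENNReal.toReal_eq_toReal_iff' (by finiteness) (by finiteness)]
  simp; norm_num

open Computable in
theorem hyper (P C : Om) (h : ∀ e, ¬ Fail e C) : ¬ ∀ f : ℕ → ℕ,
    TuringReducible (fun n => Part.some (f n)) (orc (jn P C)) →
      ∃ g : ℕ → ℕ, Computable g ∧ ∀ n, f n ≤ g n := by
  intro H
  let F : ℕ → ℕ →. ℕ := fun n k => cond (decide (st n.unpair.1 n.unpair.2 = (k, n.unpair.2)))
    (((ofNat Code n.unpair.1).eval n).map Nat.succ) (Part.some 0)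
  have u1 : Computable fun z : ℕ × ℕ => z.1.unpair.1 := fst.comp (unpair.comp fst)
  have u2 : Computable fun z : ℕ × ℕ => z.1.unpair.2 := snd.comp (unpair.comp fst)
  have hF : Partrec₂ F := Partrec.cond (ceq (st_prim.to_comp.comp u1 u2) (snd.pair u2)).decide
    ((eval_part.comp ((Computable.ofNat Code).comp u1) fst).map (succ.comp snd).to₂)
    (const 0).partrec
  have hd : ∀ n, (F n (ke C n.unpair.1)).Dom := fun n => by
    by_cases h1 : st n.unpair.1 n.unpair.2 = (ke C n.unpair.1, n.unpair.2)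
    · have := h n.unpair.1
      simp only [Fail, not_exists, not_and, not_not] at this
      simpa [F, h1] using this _ h1
    · simp [F, h1]
  have h2 : Primrec₂ fun (z : ℕ × ℕ) i => tb z.2 (2 * Nat.pair z.1.unpair.1 i + 1) :=
    tb_prim.comp (Primrec.snd.comp Primrec.fst) (Primrec.succ.comp (Primrec.nat_mul.comp
      (Primrec.const 2) (Primrec₂.natPair.comp (Primrec.fst.comp (Primrec.unpair.comp
        (Primrec.fst.comp Primrec.fst))) Primrec.snd)))
  have h3 : Computable fun z : ℕ × ℕ =>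
      cd (fun i => tb z.2 (2 * Nat.pair z.1.unpair.1 i + 1)) (z.1.unpair.1 + 3) :=
    cd_comp h2.to_comp (Primrec.nat_add.to_comp.comp u1 (const 3))
  have h4 : Primrec fun n : ℕ => 2 * Nat.pair n.unpair.1 (n.unpair.1 + 3) :=
    Primrec.nat_mul.comp (Primrec.const 2) (Primrec₂.natPair.comp (Primrec.fst.comp Primrec.unpair)
      (Primrec.nat_add.comp (Primrec.fst.comp Primrec.unpair) (Primrec.const 3)))
  obtain ⟨g, hg, h5⟩ := H (fun n => (F n (ke C n.unpair.1)).get (hd n)) (red _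
    (ψ := fun n m => F n (cd (fun i => tb m (2 * Nat.pair n.unpair.1 i + 1)) (n.unpair.1 + 3)))
    (hF.comp fst h3) h4.to_comp fun n => by
      rw [Part.some_get, ke]
      congr 1
      refine cd_congr fun i hi => ?_
      have := Nat.pair_lt_pair_right n.unpair.1 hi
      rw [tb_cd _ _ _ (by omega), jn, if_neg (by omega)]
      congr 1; omega)
  obtain ⟨d, hd'⟩ := exists_code.1 (Partrec.nat_iff.1 hg.partrec)
  obtain ⟨s, hs⟩ := st_all (e := encode d) (fun n => by simp [hd']) (ke C (encode d))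
  have h6 := h5 (Nat.pair (encode d) s)
  simp [F, hs, hd'] at h6

theorem lim {A B : Om} {φ : ℕ → ℕ} (hi : Function.Injective φ) (hφ : ∀ j, φ j ≤ 2 * j + 1)
    (h : ∃ n0, ∀ n, n0 ≤ n → 2 ^ n ≤ 4 * agr (A ∘ φ) (B ∘ φ) n) :
    limsup (fun n : ℕ => ((#{k ∈ range n | A k ≠ B k} : ℝ) / (n : ℝ))) atTop ≤ 31 / 32 := by
  obtain ⟨n0, h⟩ := h
  refine limsup_le_of_le (isCoboundedUnder_le_of_le _ (x := 0) fun n => by positivity) ?_
  filter_upwards [eventually_ge_atTop (2 ^ (n0 + 2))] with N hN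
  have hp : 0 < N := lt_of_lt_of_le (by positivity) hN
  obtain ⟨n, hn⟩ := Nat.exists_eq_add_of_le ((Nat.le_log_iff_pow_le (by norm_num) hp.ne').2 hN)
  have h1 := Nat.pow_log_le_self 2 hp.ne'
  have h2 := Nat.lt_pow_succ_log_self (b := 2) (by norm_num) N
  have h3 := h (n0 + n) (by omega)
  rw [hn, show n0 + 2 + n = n0 + n + 2 by omega] at h1 h2
  simp only [Nat.succ_eq_add_one, pow_succ] at h1 h2
  have h4 : agr (A ∘ φ) (B ∘ φ) (n0 + n) ≤ #{k ∈ range N | ¬ A k ≠ B k} := by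
    refine card_le_card_of_injOn (fun j => φ (2 ^ (n0 + n) + j)) (fun j hj => ?_)
      fun a _ b _ hab => by simpa using hi hab
    simp only [coe_filter, mem_range, Set.mem_ofPred_eq, Function.comp, not_not] at hj ⊢
    have := hφ (2 ^ (n0 + n) + j)
    exact ⟨by omega, hj.2⟩
  have h5 := card_filter_add_card_filter_not (s := range N) fun k => A k ≠ B k
  rw [card_range] at h5
  rw [div_le_div_iff₀ (by positivity) (by norm_num)]
  have : #{k ∈ range N | A k ≠ B k} * 32 ≤ 31 * N := by omega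
  exact_mod_cast this

theorem comp_red (A : Om) {h : ℕ → ℕ} (hh : Computable h) :
    TuringReducible (orc (A ∘ h)) (orc A) :=
  RecursiveIn.iff_nat.2 ((Nat.RecursiveIn.comp (.oracle (O := {orc A}) _ rfl)
    (Partrec.nat_iff.1 hh.partrec).recursiveIn).of_eq fun n => by simp [orc])

theorem main : ∃ X P C : Om, (∀ f : ℕ → ℕ, TuringReducible (fun n => Part.some (f n)) (orc X) →
      ∃ g : ℕ → ℕ, Computable g ∧ ∀ n, f n ≤ g n) ∧ (∀ e, ¬ Fail e C) ∧ (∀ s, Dnc s P) ∧
      (∀ s, ¬ Bad s X (jn P C)) ∧ ∀ s, ¬ Bad s C X := by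
  obtain ⟨X, hX, h1⟩ := hif tree
  have h2 : mu (⋃ s, {C | V s X C}) ≤ 2⁻¹ := by
    rw [Monotone.measure_iUnion (s := fun s => {C | V s X C}) fun s t hst C hC => V.mono hC hst]
    exact iSup_le fun s => T_iff.1 (hX s)
  have h3 := (measure_union_le _ _).trans (add_le_add h2 ((measure_union_le _ _).trans
    (add_le_add mu_fail' (mu_bad fun e => sv e X))))
  have h4 : (2⁻¹ + (4⁻¹ + 8⁻¹) : ℝ≥0∞) < 1 := by
    rw [← ENNReal.toReal_lt_toReal (by finiteness) (by finiteness), ENNReal.toReal_add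
      (by finiteness) (by finiteness), ENNReal.toReal_add (by finiteness) (by finiteness)]
    simp; norm_num
  obtain ⟨C, hC⟩ := (Set.ne_univ_iff_exists_notMem _).1 fun h =>
    (h3.trans_lt h4).ne ((congrArg mu h).trans measure_univ)
  simp only [Set.mem_union, Set.mem_iUnion, Set.mem_ofPred_eq, not_or, not_exists] at hC
  obtain ⟨P, hP⟩ := compact (fun s P => Dnc s P ∧ ¬ Bad s X (jn P C)) (fun s P P' h hP =>
    ⟨dnc_loc s P P' h hP.1, fun h5 => hP.2 (h5.congr (fun _ _ => rfl)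
      (jn_congr (fun i hi => (h i hi).symm) fun _ _ => rfl))⟩) fun s => by
    have := hC.1 s
    simp only [V, not_forall] at this
    obtain ⟨P, h5, h6⟩ := this
    exact ⟨P, fun u hu => ⟨h5.anti hu, fun h7 => h6 (h7.mono hu)⟩⟩
  refine ⟨X, P, C, h1, hC.2.1, fun s => (hP s).1, fun s => (hP s).2, fun s h => ?_⟩
  obtain ⟨e, -, k, -, -, -, h⟩ := bad_iff.1 h
  exact hC.2.2 e k h

end Pool.Agent.H.MP_e12961_lc
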